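import Pool.Agent.U552.AU.Err

/-!
# MP_8c8736_nt: finite automata do not decide congruent numbers, with many errors

Is there an algorithm which decides whether a given number is congruent? We show that the simplest machines cannot do it,
not even approximately: every finite automaton, which reads the digits of `n` in any base, in either direction, makes at
least `c X ^ (1/4)` errors up to `X`. The errors are of two kinds: a congruent number is rejected, or a number `2 m²` (which
is not congruent, by Fermat) is accepted. In particular the set of the congruent numbers is not `b`-automatic, and no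
`b`-automatic set separates the congruent numbers from the numbers `2 m²`, for every base `b ≥ 2`.

Proof. Let two prefixes `u > u'` with `u - u' = 2 w²` lead to the same state of an automaton which reads the most
significant digit first. Let `α = 2 w²` and let `t` be a large power of `b`. For a positive proportion (depending on the
automaton) of the `x ≤ u t` one has `α³ x⁴ = u t⁴ + r` with `0 ≤ r < t⁴`; this is twice a square. The number
`u' t⁴ + r = α (α² x⁴ - t⁴)` leads to the same state, and it is the area of the rational triangle with the legs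
`(α² x⁴ - t⁴) / (x t)` and `2 α x t`. So one of the two numbers is an error. Such prefixes exist for every automaton: in
every finite colouring of the positive integers two numbers of the same colour differ by a square (Furstenberg, Sárközy;
proved here by colour focusing from the theorem of Hales and Jewett). The other direction of reading follows by reversal.

The problem has no starting results. Library: `Pool.Agent.U552.AU`.
-/

set_option autoImplicit false

namespace Pool.Agent.Results.MP_8c8736_nt.FiniteAutomata

open Pool.Agent.U552.AU (not_tri errors)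

/-- `n` is congruent: it is the area of a right triangle with rational sides. -/
def IsCongruent (n : ℕ) : Prop :=
  ∃ a b c : ℚ, 0 < a ∧ 0 < b ∧ 0 < c ∧ a ^ 2 + b ^ 2 = c ^ 2 ∧ (n : ℚ) = a * b / 2

/-- The digits of `n` in the base `b`, the most significant digit first. -/
def leading (b n : ℕ) : List ℕ := (Nat.digits b n).reverse

/-- The digits of `n` in the base `b`, the least significant digit first. -/
def trailing (b n : ℕ) : List ℕ := Nat.digits b n

/-- For some `c > 0` and all large `X` there are at least `c X ^ (1/4)` numbers `n ≤ X` such that `n` is congruent and the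
word of `n` is not in `L`, or `n` is of the form `2 m²`, `m ≥ 1`, and the word of `n` is in `L`. -/
def ManyErrors (word : ℕ → List ℕ) (L : Language ℕ) : Prop :=
  ∃ c X₀ : ℝ, 0 < c ∧ ∀ X : ℝ, X₀ ≤ X → c * X ^ (1 / 4 : ℝ) ≤
    (({n : ℕ | (n : ℝ) ≤ X ∧ ((IsCongruent n ∧ word n ∉ L) ∨ ((∃ m : ℕ, 1 ≤ m ∧ n = 2 * m ^ 2) ∧ word n ∈ L))}.ncard : ℕ) : ℝ)

theorem leading_errors (b : ℕ) (hb : 2 ≤ b) (L : Language ℕ) (hL : L.IsRegular) : ManyErrors (leading b) L := by
  classical
  obtain ⟨σ, _, A, hA⟩ := hL.compl
  obtain ⟨c, X₀, hc, h⟩ := errors hb A
  refine ⟨c, X₀, hc, fun X hX => ?_⟩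
  obtain ⟨E, hE, hE2⟩ := h X hX
  refine hE.trans ?_
  have hacc : ∀ x : List ℕ, x ∈ A.accepts ↔ x ∉ L := by
    intro x
    rw [hA]
    exact Iff.rfl
  have hfin : {n : ℕ | (n : ℝ) ≤ X ∧ ((IsCongruent n ∧ leading b n ∉ L) ∨
      ((∃ m : ℕ, 1 ≤ m ∧ n = 2 * m ^ 2) ∧ leading b n ∈ L))}.Finite := by
    refine (Set.finite_Iic ⌊X⌋₊).subset ?_
    intro n hn
    exact Nat.le_floor hn.1
  have hsub : (E : Set ℕ) ⊆ {n : ℕ | (n : ℝ) ≤ X ∧ ((IsCongruent n ∧ leading b n ∉ L) ∨
      ((∃ m : ℕ, 1 ≤ m ∧ n = 2 * m ^ 2) ∧ leading b n ∈ L))} := by
    intro n hn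
    obtain ⟨h1, h2⟩ := hE2 n hn
    refine ⟨h1, ?_⟩
    rcases h2 with ⟨m, hm, hnm, h3⟩ | ⟨h3, h4⟩
    · right
      refine ⟨⟨m, hm, hnm⟩, ?_⟩
      rw [hacc, not_not] at h3
      exact h3
    · left
      rw [hacc] at h4
      exact ⟨h3, h4⟩
  have := Set.ncard_le_ncard hsub hfin
  rw [Set.ncard_coe_finset] at this
  exact_mod_cast this

theorem trailing_errors (b : ℕ) (hb : 2 ≤ b) (L : Language ℕ) (hL : L.IsRegular) : ManyErrors (trailing b) L := by
  have h := leading_errors b hb L.reverse hL.reverse
  have e : ∀ n, leading b n ∈ L.reverse ↔ trailing b n ∈ L := by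
    intro n
    rw [Language.mem_reverse, leading, List.reverse_reverse, trailing]
  unfold ManyErrors at h ⊢
  simp only [e] at h
  exact h

/-- **Finite automata do not decide congruent numbers.** The numbers `2 m²` are not congruent. For every base `b ≥ 2`, both
directions of reading and every regular language `L` (the words accepted by a finite automaton) there are at least
`c X ^ (1/4)` numbers `n ≤ X`, `c > 0`, for all large `X`, such that `n` is congruent but rejected or `n` is of the form
`2 m²` but accepted. -/
theorem result (b : ℕ) (hb : 2 ≤ b) (L : Language ℕ) (hL : L.IsRegular) :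
    (∀ m : ℕ, ¬ IsCongruent (2 * m ^ 2)) ∧ ManyErrors (leading b) L ∧ ManyErrors (trailing b) L :=
  ⟨not_tri, leading_errors b hb L hL, trailing_errors b hb L hL⟩

end Pool.Agent.Results.MP_8c8736_nt.FiniteAutomata
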